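import Pool.Agent.H174.GP.StP

/-!
# Project GP (helper174): summation by parts
-/

open MeasureTheory ProbabilityTheory Finset
open Pool.Agent.H174.GP

namespace Pool.Agent.H784.GP174

theorem gp_abel : Pool.Agent.H174.GP.S_abel := by
  intro ω L y hy hL
  induction L, hL using Nat.le_induction with
  | base =>
    have hy0 : (y : ℝ) ≠ 0 := by
      have : y ≠ 0 := by omega
      exact_mod_cast this
    rw [Finset.Ico_self, Finset.sum_empty, zero_add, div_self hy0, one_mul]
    unfold Ch Cs S
    refine Finset.sum_congr rfl fun j hj => ?_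
    rw [Finset.mem_Icc] at hj
    have hj0 : (j : ℝ) ≠ 0 := by
      have : j ≠ 0 := by omega
      exact_mod_cast this
    rw [min_eq_left hj.2]
    field_simp
  | succ L hL ih =>
    have hL0 : (L : ℝ) ≠ 0 := by
      have : L ≠ 0 := by omega
      exact_mod_cast this
    have hL1 : ((L : ℝ) + 1) ≠ 0 := by positivity
    have h1 : Ch ω (L + 1) y = Ch ω L y + (y : ℝ) * (ω (L + 1) / ((L : ℝ) + 1)) := by
      unfold Ch Cs
      rw [Finset.sum_Icc_succ_top (by omega), min_eq_right (by omega : y ≤ L + 1)]
      push_cast
      rfl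
    have h2 : S ω (L + 1) = S ω L + ω (L + 1) := by
      unfold S
      rw [Finset.sum_Icc_succ_top (by omega)]
    rw [h1, ih, Finset.sum_Ico_succ_top hL, h2]
    push_cast
    field_simp
    ring

end Pool.Agent.H784.GP174
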