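import Pool.Agent.H174.GP.StA

/-!
# Project GP (helper174): product bound 2
-/

open MeasureTheory ProbabilityTheory Finset

namespace Pool.Agent.H784.GP174

theorem fac (t : ℝ) (ht : 0 < t) (d j : ℕ) (hj : j ∈ Finset.Icc 1 d) (h : t * d ≤ 1) :
    1 / (1 - Real.exp (-(t * j))) ≤ (2 / t) * (1 / (j : ℝ)) := by
  rw [Finset.mem_Icc] at hj
  have hj1 : (1 : ℝ) ≤ (j : ℝ) := by exact_mod_cast hj.1
  have hjd : (j : ℝ) ≤ (d : ℝ) := by exact_mod_cast hj.2
  obtain ⟨x, hx⟩ : ∃ x : ℝ, x = t * j := ⟨_, rfl⟩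
  have hx0 : 0 < x := by rw [hx]; positivity
  have hx1 : x ≤ 1 := by
    rw [hx]
    exact (mul_le_mul_of_nonneg_left hjd ht.le).trans h
  have h1 : Real.exp (-x) ≤ 1 / (1 + x) := by
    rw [Real.exp_neg, ← one_div]
    apply one_div_le_one_div_of_le (by linarith)
    have := Real.add_one_le_exp x
    linarith
  have h2 : x / 2 ≤ 1 - 1 / (1 + x) := by
    have e : 1 - 1 / (1 + x) = x / (1 + x) := by
      field_simp
      ring
    rw [e]
    exact div_le_div_of_nonneg_left hx0.le (by linarith) (by linarith)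
  have h3 : x / 2 ≤ 1 - Real.exp (-x) := by linarith
  have h4 : 1 / (1 - Real.exp (-x)) ≤ 1 / (x / 2) :=
    one_div_le_one_div_of_le (by linarith) h3
  have h5 : 1 / (x / 2) = (2 / t) * (1 / (j : ℝ)) := by
    rw [hx]
    field_simp
  rw [← hx, ← h5]
  exact h4

theorem prod_inv (d : ℕ) (c : ℝ) :
    ∏ j ∈ Finset.Icc 1 d, (c * (1 / (j : ℝ))) = c ^ d / (d.factorial : ℝ) := by
  induction d with
  | zero => simp
  | succ d ih =>
    rw [Finset.prod_Icc_succ_top (by omega), ih, Nat.factorial_succ]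
    have h1 : (d.factorial : ℝ) ≠ 0 := by exact_mod_cast d.factorial_ne_zero
    have h2 : ((d : ℝ) + 1) ≠ 0 := by positivity
    push_cast
    field_simp
    ring

theorem gp_prod2 : Pool.Agent.H174.GP.S_prod2 := by
  intro d t ht hd h
  have hd0 : (0 : ℝ) < (d : ℝ) := by exact_mod_cast hd
  have h1 : ∏ j ∈ Finset.Icc 1 d, (1 / (1 - Real.exp (-(t * j)))) ≤
      ∏ j ∈ Finset.Icc 1 d, ((2 / t) * (1 / (j : ℝ))) := by
    apply Finset.prod_le_prod
    · intro j _
      have h2 : Real.exp (-(t * j)) ≤ 1 := by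
        rw [Real.exp_le_one_iff]
        have : 0 ≤ t * (j : ℝ) := by positivity
        linarith
      exact one_div_nonneg.2 (by linarith)
    · intro j hj
      exact fac t ht d j hj h
  refine h1.trans ?_
  rw [prod_inv]
  have h3 : (d : ℝ) ^ d / (d.factorial : ℝ) ≤ Real.exp d :=
    Real.pow_div_factorial_le_exp (d : ℝ) hd0.le d
  have h4 : (0 : ℝ) < (d.factorial : ℝ) := by exact_mod_cast d.factorial_pos
  have h5 : (2 * Real.exp 1 / (t * d)) ^ d = ((2 / t) ^ d / (d : ℝ) ^ d) * Real.exp d := by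
    have e1 : Real.exp (d : ℝ) = Real.exp 1 ^ d := by
      rw [← Real.exp_nat_mul, mul_one]
    rw [e1, ← div_pow, ← mul_pow]
    congr 1
    field_simp
  have h6 : (2 / t) ^ d / (d.factorial : ℝ) =
      ((2 / t) ^ d / (d : ℝ) ^ d) * ((d : ℝ) ^ d / (d.factorial : ℝ)) := by
    have : (d : ℝ) ^ d ≠ 0 := (pow_pos hd0 d).ne'
    field_simp
  rw [h5, h6]
  exact mul_le_mul_of_nonneg_left h3 (by positivity)

end Pool.Agent.H784.GP174
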